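import Pool.Agent.helper14.AV.Spec4

set_option autoImplicit false

namespace Pool.Agent.helper14.AV

theorem NCU : NCU_stmt := by
  classical
  intro ι _ A B hN
  have key : ∀ n : ℕ, ∀ W U : Finset ι, U.card = n → Disjoint W U → Cuttable A B W U := by
    intro n
    induction n using Nat.strong_induction_on with
    | _ n ih =>
      intro W U hn hWU
      rcases U.eq_empty_or_nonempty with h | ⟨v, hv⟩
      · rw [h]
        exact Cuttable.nil W
      · have hUL : (U.filter fun j => j ≠ v ∧ 0 < D (A v) (B v) (A j)).card < n := by
          rw [← hn]
          apply Finset.card_lt_card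
          rw [Finset.ssubset_iff_of_subset (Finset.filter_subset _ _)]
          exact ⟨v, hv, fun h => (Finset.mem_filter.mp h).2.1 rfl⟩
        have hUR : (U.filter fun j => j ≠ v ∧ D (A v) (B v) (A j) < 0).card < n := by
          rw [← hn]
          apply Finset.card_lt_card
          rw [Finset.ssubset_iff_of_subset (Finset.filter_subset _ _)]
          exact ⟨v, hv, fun h => (Finset.mem_filter.mp h).2.1 rfl⟩
        refine Cuttable.cut W U (insert v (W.filter fun j => 0 < D (A v) (B v) (A j)))
          (U.filter fun j => j ≠ v ∧ 0 < D (A v) (B v) (A j))
          (insert v (W.filter fun j => D (A v) (B v) (A j) < 0))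
          (U.filter fun j => j ≠ v ∧ D (A v) (B v) (A j) < 0) v hv ?_ ?_ ?_ ?_ ?_ ?_ ?_
        · intro j _ hj
          exact hN v j (Ne.symm hj)
        · intro j
          rw [Finset.mem_insert, Finset.mem_filter]
        · intro j
          rw [Finset.mem_insert, Finset.mem_filter]
        · intro j
          rw [Finset.mem_filter]
        · intro j
          rw [Finset.mem_filter]
        · apply ih _ hUL _ _ rfl
          rw [Finset.disjoint_left]
          intro j hj hj2
          rw [Finset.mem_insert, Finset.mem_filter] at hj
          rw [Finset.mem_filter] at hj2
          rcases hj with h | h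
          · exact hj2.2.1 h
          · exact (Finset.disjoint_left.mp hWU) h.1 hj2.1
        · apply ih _ hUR _ _ rfl
          rw [Finset.disjoint_left]
          intro j hj hj2
          rw [Finset.mem_insert, Finset.mem_filter] at hj
          rw [Finset.mem_filter] at hj2
          rcases hj with h | h
          · exact hj2.2.1 h
          · exact (Finset.disjoint_left.mp hWU) h.1 hj2.1
  intro W U h
  exact key _ W U rfl h

end Pool.Agent.helper14.AV
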